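import Pool.Agent.H95.INS.Targets2

/-!
# The insertion lemma: summary of the probability estimates (module PRB)
-/

open MeasureTheory ProbabilityTheory
open scoped ENNReal

namespace Pool.Agent.H35.INS

open Pool.Agent.H95.INS Pool.Agent.H99.NS Pool.Agent.H22.LPP

theorem depOn_not {A : Set Site} {E : Env → Prop} (h : DepOn A E) :
    DepOn A (fun ω => ¬ E ω) := by
  intro ω ω' hh
  have h2 := h ω ω' hh
  simp only [h2]

theorem hundred_cancel (x P : ℝ≥0∞) : 100 * x * (P / 100) = x * P := by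
  rw [show 100 * x * (P / 100) = x * (100 * (P / 100)) by ring]
  congr 1
  exact ENNReal.mul_div_cancel (by norm_num) (by norm_num)

theorem quot_le {m x P : ℝ≥0∞} (h : m ≤ x * P) : m / (P / 100) ≤ 100 * x := by
  refine ENNReal.div_le_of_le_mul ?_
  rw [hundred_cancel]
  exact h

/-- The Fubini condition from bounds for the probabilities. -/
theorem fc_bound (h_FIM : T_FIM) (h_DEP : T_DEP) (h_MAR : T_MAR) (D : Dat) (x : ℝ≥0∞)
    (hP0 : pH D ≠ 0) (hPt : pH D ≠ ∞)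
    (h1 : PE D.q {ω | ¬ UB D ω (-(3 * D.n)) (-(2 * D.n)) (1001 / 1000)} ≤ x * pH D)
    (h2 : PE D.q {ω | ¬ UB D ω (2 * D.n) (3 * D.n) (1001 / 1000)} ≤ x * pH D)
    (h3 : PE D.q {ω | ¬ ND D ω (-(3 * D.n)) (-(2 * D.n)) (974 / 1000)} ≤ x * pH D)
    (h4 : PE D.q {ω | ¬ ND D ω (2 * D.n) (3 * D.n) (974 / 1000)} ≤ x * pH D)
    (h5 : PE D.q {ω | ¬ Sm D ω} ≤ x)
    (h6 : PE D.q {ω | ¬ CU D ω} ≤ x * pH D ^ 2) :
    PE D.q {out | ¬ FC D out} ≤ 600 * x := by
  have hdep := fun (s t : ℤ) (c : ℝ) => h_DEP D s t c 0 0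
  have hUBm : ∀ s t c, MeasurableSet {ω : Env | ¬ UB D ω s t c} := fun s t c =>
    h_FIM (Wd D s t) _ (hdep s t c).2.2.2.2.2.2.1 (depOn_not (hdep s t c).1)
  have hNDm : ∀ s t c, MeasurableSet {ω : Env | ¬ ND D ω s t c} := fun s t c =>
    h_FIM (Wd D s t) _ (hdep s t c).2.2.2.2.2.2.1 (depOn_not (hdep s t c).2.1)
  have hCUm : MeasurableSet {ω : Env | ¬ CU D ω} :=
    h_FIM (Wd D (-(4 * D.n)) (4 * D.n)) _
      (hdep (-(4 * D.n)) (4 * D.n) 0).2.2.2.2.2.2.1 (depOn_not (hdep 0 0 0).2.2.1)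
  have hSmm : MeasurableSet {ω : Env | ¬ Sm D ω} := by
    have e : {ω : Env | ¬ Sm D ω} =
        {ω : Env | ¬ UB D ω (-(4 * D.n)) (-(3 * D.n)) (1 / 1000)} ∪
        ({ω : Env | ¬ UB D ω (-(2 * D.n)) (2 * D.n) (1 / 1000)} ∪
        {ω : Env | ¬ UB D ω (3 * D.n) (4 * D.n) (1 / 1000)}) := by
      ext ω
      simp only [Set.mem_setOf_eq, Set.mem_union]
      constructor
      · intro h
        by_contra hc
        push Not at hc
        exact h ⟨hc.1, hc.2.1, hc.2.2⟩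
      · rintro (h | h | h) hs
        · exact h hs.s1
        · exact h hs.s2
        · exact h hs.s3
    rw [e]
    exact (hUBm _ _ _).union ((hUBm _ _ _).union (hUBm _ _ _))
  have ha0 : pH D / 100 ≠ 0 := by
    rw [Ne, ENNReal.div_eq_zero_iff]
    push Not
    exact ⟨hP0, by norm_num⟩
  have hat : pH D / 100 ≠ ∞ := ENNReal.div_ne_top hPt (by norm_num)
  have hb0 : pH D ^ 2 / 100 ≠ 0 := by
    rw [Ne, ENNReal.div_eq_zero_iff]
    push Not
    exact ⟨pow_ne_zero 2 hP0, by norm_num⟩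
  have hbt : pH D ^ 2 / 100 ≠ ∞ := ENNReal.div_ne_top (ENNReal.pow_ne_top hPt) (by norm_num)
  have k1 := (h_MAR D _ _ (hUBm (-(3 * D.n)) (-(2 * D.n)) (1001 / 1000)) ha0 hat).trans
    (quot_le h1)
  have k2 := (h_MAR D _ _ (hUBm (2 * D.n) (3 * D.n) (1001 / 1000)) ha0 hat).trans (quot_le h2)
  have k3 := (h_MAR D _ _ (hNDm (-(3 * D.n)) (-(2 * D.n)) (974 / 1000)) ha0 hat).trans
    (quot_le h3)
  have k4 := (h_MAR D _ _ (hNDm (2 * D.n) (3 * D.n) (974 / 1000)) ha0 hat).trans (quot_le h4)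
  have k5 := (h_MAR D _ (1 / 100) hSmm (by norm_num) (by
    refine ENNReal.div_ne_top (by norm_num) (by norm_num))).trans
    (quot_le (x := x) (P := 1) (by rw [mul_one]; exact h5))
  have k6 := (h_MAR D _ _ hCUm hb0 hbt).trans (quot_le h6)
  have hsub : {out : Env | ¬ FC D out} ⊆
      {out | ¬ Pin D out (fun ω => ¬ UB D ω (-(3 * D.n)) (-(2 * D.n)) (1001 / 1000)) ≤
        pH D / 100} ∪
      ({out | ¬ Pin D out (fun ω => ¬ UB D ω (2 * D.n) (3 * D.n) (1001 / 1000)) ≤ pH D / 100} ∪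
      ({out | ¬ Pin D out (fun ω => ¬ ND D ω (-(3 * D.n)) (-(2 * D.n)) (974 / 1000)) ≤
        pH D / 100} ∪
      ({out | ¬ Pin D out (fun ω => ¬ ND D ω (2 * D.n) (3 * D.n) (974 / 1000)) ≤ pH D / 100} ∪
      ({out | ¬ Pin D out (fun ω => ¬ Sm D ω) ≤ 1 / 100} ∪
      {out | ¬ Pin D out (fun ω => ¬ CU D ω) ≤ pH D ^ 2 / 100})))) := by
    intro out hout
    simp only [Set.mem_union, Set.mem_setOf_eq] at hout ⊢
    by_contra hc
    push Not at hc
    exact hout ⟨hc.1, hc.2.1, hc.2.2.1, hc.2.2.2.1, hc.2.2.2.2.1, hc.2.2.2.2.2⟩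
  refine (measure_mono hsub).trans ?_
  refine (measure_union_le _ _).trans ?_
  refine (add_le_add k1 ((measure_union_le _ _).trans (add_le_add k2
    ((measure_union_le _ _).trans (add_le_add k3 ((measure_union_le _ _).trans (add_le_add k4
      ((measure_union_le _ _).trans (add_le_add k5 k6))))))))).trans ?_
  apply le_of_eq
  ring

theorem pow_shift (a : ℤ) {k : ℕ} (hk : 1 ≤ k) : a ^ k = a * a ^ (k - 1) := by
  obtain ⟨j, rfl⟩ : ∃ j, k = j + 1 := ⟨k - 1, by omega⟩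
  rw [Nat.add_sub_cancel, pow_succ]
  ring

theorem pow_shiftR (a : ℝ) {k : ℕ} (hk : 1 ≤ k) : a ^ k = a * a ^ (k - 1) := by
  obtain ⟨j, rfl⟩ : ∃ j, k = j + 1 := ⟨k - 1, by omega⟩
  rw [Nat.add_sub_cancel, pow_succ]
  ring

/-- The data of the scale `k` are admissible. -/
theorem dat_ok {q K B H Y : ℝ} {A X : ℤ} {k : ℕ} (hq0 : 0 < q) (hq1 : q < 1) (hk : 1 ≤ k)
    (hK : 0 ≤ K) (hB : 0 ≤ B) (hA : 40 ≤ A) (hAe : Even A) (hBA : B ≤ A)
    (c1 : 70 * sg q + 3 * K * (1 + B) + sg q * B ^ 2 ≤ H / 1000)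
    (c2 : K * (1 + 16 * A) ≤ H / 1000) (c3 : H ≤ Y) (c4 : 4 * Y ≤ sg q * (A:ℝ) ^ 2)
    (hX1 : 16 * A * 16 ^ k ≤ X) (hX2 : X + A * 16 ^ k ≤ 32 * 64 ^ k) :
    (dat q k A K B H Y X).Ok := by
  refine
    { q0 := hq0
      q1 := hq1
      n1 := ?_
      ne := ?_
      w1 := ?_
      f0 := ?_
      sc := ?_
      A2 := ?_
      Ae := hAe
      K0 := hK
      B0 := hB
      BA := hBA
      c1 := c1
      c2 := c2
      c3 := c3
      c4 := c4
      X1 := hX1
      X2 := ?_ }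
  · change (1:ℤ) ≤ 8 * 64 ^ (k - 1)
    have : (1:ℤ) ≤ 64 ^ (k - 1) := one_le_pow₀ (by norm_num)
    linarith
  · change Even ((8:ℤ) * 64 ^ (k - 1))
    exact Even.mul_right (by decide) _
  · change (1:ℤ) ≤ 16 ^ k
    exact one_le_pow₀ (by norm_num)
  · change (0:ℝ) < 4 ^ k
    positivity
  · change (((16:ℤ) ^ k : ℤ) : ℝ) ^ 2 = 8 * ((8 * 64 ^ (k - 1) : ℤ) : ℝ) * 4 ^ k
    push_cast
    rw [show (8:ℝ) * (8 * 64 ^ (k - 1)) = 64 * 64 ^ (k - 1) by ring, ← pow_shiftR 64 hk,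
      ← pow_mul, mul_comm k 2, pow_mul, ← mul_pow]
    norm_num
  · change (2:ℤ) ≤ A
    omega
  · change X + A * 16 ^ k ≤ 256 * (8 * 64 ^ (k - 1))
    rw [pow_shift 64 hk] at hX2
    linarith

theorem pf_PRB (h_FIM : T_FIM) (h_DEP : T_DEP) (h_MAR : T_MAR) (h_PCU : T_PCU) (h_PSM : T_PSM)
    (h_PLO : T_PLO) (h_PHL : T_PHL) (h_PUB : T_PUB) (h_PND : T_PND) (h_CHO : T_CHO) :
    T_PRB := by
  intro q cs hq0 hq1 hcs hIA hIC hIB hIS hIL K B ε' hK hB hε'
  have hε : 0 < cs / 10000 := by positivity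
  obtain ⟨C2, hC2, H0, hPHL⟩ := h_PHL q cs hq0 hq1 hcs hIA hIL (cs / 10000) hε
  obtain ⟨H0', hH0', hPUB⟩ := h_PUB q cs hq0 hq1 hcs hIS (cs / 10000) hε
  obtain ⟨Ca, ca, hCa, hca, hPCU⟩ := h_PCU q hq0 hq1 hIA
  obtain ⟨Cb, cb, hCb, hcb, hPSM⟩ := h_PSM q hq0 hq1 hIC
  obtain ⟨Cc, cc, hCc, hcc, kc, hkc, hPLO⟩ := h_PLO q hq0 hq1 hIA hIB
  obtain ⟨Cd, cd, hCd, hcd, kd, hkd, hIB'⟩ := hIB
  -- common constants
  obtain ⟨C, hCdef⟩ : ∃ C : ℝ, C = Ca + Cb + Cc + Cd := ⟨_, rfl⟩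
  obtain ⟨c, hcdef⟩ : ∃ c : ℝ, c = min (min ca cb) (min cc cd) := ⟨_, rfl⟩
  have hC : 0 < C := by rw [hCdef]; positivity
  have hc : 0 < c := by
    rw [hcdef]
    exact lt_min (lt_min hca hcb) (lt_min hcc hcd)
  have hcca : c ≤ ca := by rw [hcdef]; exact (min_le_left _ _).trans (min_le_left _ _)
  have hccb : c ≤ cb := by rw [hcdef]; exact (min_le_left _ _).trans (min_le_right _ _)
  have hccc : c ≤ cc := by rw [hcdef]; exact (min_le_right _ _).trans (min_le_left _ _)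
  have hccd : c ≤ cd := by rw [hcdef]; exact (min_le_right _ _).trans (min_le_right _ _)
  have hCCa : Ca ≤ C := by rw [hCdef]; linarith
  have hCCb : Cb ≤ C := by rw [hCdef]; linarith
  have hCCc : Cc ≤ C := by rw [hCdef]; linarith
  have hCCd : Cd ≤ C := by rw [hCdef]; linarith
  obtain ⟨e, hedef⟩ : ∃ e : ℝ, e = min ε' 1 / 1000 := ⟨_, rfl⟩
  have he : 0 < e := by
    rw [hedef]
    have : 0 < min ε' 1 := lt_min hε' one_pos
    positivity
  have he1 : e ≤ 1 / 1000 := by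
    rw [hedef]
    have : min ε' 1 ≤ 1 := min_le_right _ _
    linarith
  have he2 : 600 * e ≤ ε' := by
    rw [hedef]
    have : min ε' 1 ≤ ε' := min_le_left _ _
    have h3 : 0 < min ε' 1 := lt_min hε' one_pos
    linarith
  obtain ⟨A, H, Y, hH0, hH1, hA40, hAe, hBA, hAH, c1, c2, c3, c4, c5, hU1, hU2, hV1, hV2⟩ :=
    h_CHO q cs C2 e K B C c hq0 hq1 hcs hC2 he hK hB hC hc (max H0 H0')
  have hA1 : (1:ℤ) ≤ A := by omega
  have hAr : (40:ℝ) ≤ (A:ℝ) := by exact_mod_cast hA40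
  have hY1 : 1 ≤ Y := hH1.trans c3
  obtain ⟨k1, hk1, hP1⟩ := hPHL A K B H Y ((le_max_left _ _).trans hH0) hY1 c5 hA40
    (by linarith)
  obtain ⟨k2, hk2, hP2⟩ := hPUB A K B H Y (1001 / 1000) ((le_max_right _ _).trans hH0) hA1 hAH
    (by norm_num) (by norm_num)
  obtain ⟨k3, hk3, hP3⟩ := hPUB A K B H Y (974 / 1000) ((le_max_right _ _).trans hH0) hA1 hAH
    (by norm_num) (by norm_num)
  obtain ⟨kb, hkb, hP4⟩ := hPSM A hA1
  obtain ⟨p, hpdef⟩ : ∃ p : ℝ,
    p = Real.exp (-((cs + cs / 10000) * (2 * H) ^ ((3:ℝ)/2))) / 2 := ⟨_, rfl⟩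
  have hp0 : 0 < p := by rw [hpdef]; positivity
  have hp1 : p ≤ 1 := by
    rw [hpdef]
    have : Real.exp (-((cs + cs / 10000) * (2 * H) ^ ((3:ℝ)/2))) ≤ 1 := by
      rw [Real.exp_le_one_iff]
      have : 0 ≤ (cs + cs / 10000) * (2 * H) ^ ((3:ℝ)/2) := by positivity
      linarith
    linarith
  simp only at hU1 hU2 hV1 hV2
  rw [← hpdef] at hU1 hU2 hV2
  refine ⟨A, H, Y, ENNReal.ofReal p, k1 + k2 + k3 + kb + kc + kd, hA40,
    ENNReal.ofReal_pos.2 hp0, by omega, hH1, ?_⟩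
  intro k X hk hX1 hX2
  have hk1' : 1 ≤ k := by omega
  have hok : (dat q k A K B H Y X).Ok :=
    dat_ok hq0 hq1 hk1' hK hB hA40 hAe hBA c1 c2 c3 c4 hX1 hX2
  have hP := hP1 k X (by omega) hok
  have hpP : ENNReal.ofReal p ≤ pH (dat q k A K B H Y X) := by
    have h2 : (2:ℝ≥0∞) * ENNReal.ofReal p ≤ 2 * pH (dat q k A K B H Y X) := by
      refine le_trans (le_of_eq ?_) hP
      rw [show (2:ℝ≥0∞) = ENNReal.ofReal 2 by simp, ← ENNReal.ofReal_mul (by norm_num), hpdef]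
      congr 1
      ring
    exact (ENNReal.mul_le_mul_iff_right (by norm_num) (by norm_num)).1 h2
  have hP0 : pH (dat q k A K B H Y X) ≠ 0 := by
    intro h
    rw [h] at hpP
    have := ENNReal.ofReal_pos.2 hp0
    exact absurd hpP (not_le.2 this)
  have hPt : pH (dat q k A K B H Y X) ≠ ∞ := measure_ne_top _ _
  -- crude estimate
  have hCA0 : PE q {ω | ¬ CA (dat q k A K B H Y X) ω} ≤ ENNReal.ofReal (e * p ^ 2) := by
    refine (hPCU k A X K B H Y hk1' hA1 hY1).trans (ENNReal.ofReal_le_ofReal ?_)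
    refine le_trans ?_ hV2
    have h1 : Real.exp (-(ca * Y)) ≤ Real.exp (-(c * Y)) := by
      apply Real.exp_le_exp.2
      have : c * Y ≤ ca * Y := mul_le_mul_of_nonneg_right hcca (by linarith)
      linarith
    have h2 : Ca * (A:ℝ) ≤ C * A := mul_le_mul_of_nonneg_right hCCa (by linarith)
    exact mul_le_mul h2 h1 (Real.exp_pos _).le (by positivity)
  have hep : ENNReal.ofReal (e * p ^ 2) ≤ ENNReal.ofReal e * pH (dat q k A K B H Y X) ^ 2 := by
    rw [ENNReal.ofReal_mul he.le, ENNReal.ofReal_pow hp0.le]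
    exact mul_le_mul' le_rfl (pow_le_pow_left' hpP 2)
  have hep1 : ENNReal.ofReal (e * p) ≤ ENNReal.ofReal e * pH (dat q k A K B H Y X) := by
    rw [ENNReal.ofReal_mul he.le]
    exact mul_le_mul' le_rfl hpP
  have hehun : ENNReal.ofReal e * pH (dat q k A K B H Y X) ^ 2 ≤
      pH (dat q k A K B H Y X) ^ 2 / 100 := by
    rw [ENNReal.div_eq_inv_mul]
    refine mul_le_mul' ?_ le_rfl
    rw [show (100:ℝ≥0∞)⁻¹ = ENNReal.ofReal (1 / 100) by
      rw [one_div, ENNReal.ofReal_inv_of_pos (by norm_num)]; simp]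
    exact ENNReal.ofReal_le_ofReal (by linarith)
  have hslab : ∀ s t : ℤ, t - s = 8 * 64 ^ (k - 1) → ∀ c' : ℝ,
      {ω | ¬ UB (dat q k A K B H Y X) ω s t c'} ⊆
      {ω | ∃ g, IsPath s t g ∧ Stay (16 * A * 16 ^ k) s t g ∧ c' * H * 4 ^ k ≤ Exc q ω s t g} := by
    intro s t _ c' ω hω
    simp only [Set.mem_setOf_eq, UB] at hω
    push Not at hω
    obtain ⟨g, hg1, hg2, hg3⟩ := hω
    exact ⟨g, hg1, hg2, hg3.le⟩
  have hUB : ∀ s t : ℤ, t - s = 8 * 64 ^ (k - 1) →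
      PE q {ω | ¬ UB (dat q k A K B H Y X) ω s t (1001 / 1000)} ≤
      ENNReal.ofReal e * pH (dat q k A K B H Y X) := by
    intro s t hst
    refine (measure_mono (hslab s t hst _)).trans ?_
    refine (hP2 k X s t (by omega) hst).trans ?_
    exact (ENNReal.ofReal_le_ofReal hU1).trans hep1
  have hND : ∀ s t : ℤ, s ≤ t → t - s = 8 * 64 ^ (k - 1) →
      PE q {ω | ¬ ND (dat q k A K B H Y X) ω s t (974 / 1000)} ≤
      ENNReal.ofReal e * pH (dat q k A K B H Y X) := by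
    intro s t hst1 hst
    refine (h_PND (dat q k A K B H Y X) s t (974 / 1000) hq0 hq1 hst1).trans ?_
    refine (pow_le_pow_left' (hP3 k X s t (by omega) hst) 2).trans ?_
    rw [← ENNReal.ofReal_pow (by positivity)]
    exact (ENNReal.ofReal_le_ofReal hU2).trans hep1
  have hn : (dat q k A K B H Y X).n = 8 * 64 ^ (k - 1) := rfl
  have hpos : (0:ℤ) < 64 ^ (k - 1) := by positivity
  refine ⟨hok, hpP, ?_, ?_, ?_, ?_⟩
  · have hfc := fc_bound h_FIM h_DEP h_MAR (dat q k A K B H Y X) (ENNReal.ofReal e) hP0 hPt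
      (hUB _ _ (by rw [hn]; ring)) (hUB _ _ (by rw [hn]; ring))
      (hND _ _ (by rw [hn]; linarith) (by rw [hn]; ring))
      (hND _ _ (by rw [hn]; linarith) (by rw [hn]; ring)) ?_ ?_
    · refine hfc.trans ?_
      rw [show (600:ℝ≥0∞) = ENNReal.ofReal 600 by simp, ← ENNReal.ofReal_mul (by norm_num)]
      exact ENNReal.ofReal_le_ofReal he2
    · refine (hP4 k X K B H Y (by omega) (by linarith)).trans (ENNReal.ofReal_le_ofReal ?_)
      refine le_trans ?_ hV1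
      have h1 : Real.exp (-(cb * H)) ≤ Real.exp (-(c * H)) := by
        apply Real.exp_le_exp.2
        have : c * H ≤ cb * H := mul_le_mul_of_nonneg_right hccb (by linarith)
        linarith
      have h2 : Cb * (A:ℝ) ^ 2 ≤ C * A ^ 2 := mul_le_mul_of_nonneg_right hCCb (by positivity)
      exact mul_le_mul h2 h1 (Real.exp_pos _).le (by positivity)
    · refine le_trans (measure_mono ?_) (hCA0.trans hep)
      intro ω hω hCA
      apply hω
      intro s t g hs hst ht hg hst2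
      exact hCA s t g hs hst ht hg (hst2 s le_rfl hst).le
  · refine (hPLO k A X K B H Y (by omega) hA40 hY1 hok).trans ?_
    rw [show (1:ℝ≥0∞) / 100 = ENNReal.ofReal (1 / 100) by
      rw [one_div, one_div, ENNReal.ofReal_inv_of_pos (by norm_num)]; simp]
    refine ENNReal.ofReal_le_ofReal ?_
    have h1 : Real.exp (-(cc * Y)) ≤ Real.exp (-(c * Y)) := by
      apply Real.exp_le_exp.2
      have : c * Y ≤ cc * Y := mul_le_mul_of_nonneg_right hccc (by linarith only [he, he1, hAH, c3, hAr])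
      linarith only [this]
    have h2 : Cc * (A:ℝ) ≤ C * A := mul_le_mul_of_nonneg_right hCCc (by linarith)
    have h3 : Cc * (A:ℝ) * Real.exp (-(cc * Y)) ≤ C * A * Real.exp (-(c * Y)) :=
      mul_le_mul h2 h1 (Real.exp_pos _).le (by positivity)
    have h4 : Real.exp (-(cc * H)) ≤ Real.exp (-(c * H)) := by
      apply Real.exp_le_exp.2
      have : c * H ≤ cc * H := mul_le_mul_of_nonneg_right hccc (by linarith)
      linarith
    have h5 : Cc ≤ C * (A:ℝ) ^ 2 := by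
      have : (1:ℝ) ≤ (A:ℝ) ^ 2 := by nlinarith only [hAr, hB, he, he1, hBA]
      nlinarith only [hCd, hCdef, hq0, hq1, hCa, he, he1, this, hCb, hCc]
    have h6 : Cc * Real.exp (-(cc * H)) ≤ C * (A:ℝ) ^ 2 * Real.exp (-(c * H)) :=
      mul_le_mul h5 h4 (Real.exp_pos _).le (by positivity)
    have h7 : e * p ^ 2 ≤ e := by
      have : p ^ 2 ≤ 1 := by nlinarith only [hp1, he, hU2]
      nlinarith only [hq0, hq1, he, this]
    linarith
  · exact (hCA0.trans hep).trans hehun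
  · have h1 := hIB' k (by omega) (-(4 * (dat q k A K B H Y X).n)) (4 * (dat q k A K B H Y X).n)
      (Or.inr (Or.inr (by rw [hn, pow_shift 64 hk1']; ring))) Y (by linarith)
    refine le_trans (measure_mono ?_) (le_trans h1 ?_)
    · intro ω hω
      refine ⟨0, 0, by simp, by simp, ?_, ?_⟩
      · constructor
        · rw [hn]
          simp only [sub_self, abs_zero]
          linarith
        · rw [hn]
          simp only [sub_self, add_zero]
          exact ⟨4 * (8 * 64 ^ (k - 1)), by ring⟩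
      · have h2 : T ω (-(4 * (dat q k A K B H Y X).n), 0) (4 * (dat q k A K B H Y X).n, 0) <
          mu q * (8 * ((dat q k A K B H Y X).n : ℝ)) - Y * 4 ^ k := hω
        refine lt_of_lt_of_eq h2 ?_
        unfold par
        simp only
        push_cast
        ring
    · refine le_trans (ENNReal.ofReal_le_ofReal ?_) (hep.trans hehun)
      refine le_trans ?_ hV2
      have h1 : Real.exp (-(cd * Y)) ≤ Real.exp (-(c * Y)) := by
        apply Real.exp_le_exp.2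
        have : c * Y ≤ cd * Y := mul_le_mul_of_nonneg_right hccd (by linarith)
        linarith
      have h2 : Cd ≤ C * (A:ℝ) := by nlinarith only [hq0, hq1, hB, hCdef, hCa, he, he1, hAr, hCb, hCc, hCd, hBA]
      exact mul_le_mul h2 h1 (Real.exp_pos _).le (by positivity)

end Pool.Agent.H35.INS
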